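import Pool.Agent.W912.LG.Defs
import Pool.Agent.H622R2.Ckt.CNT

/-!
# The number of behaviours of circuits with few oracle changes
-/

set_option autoImplicit false

namespace Pool.Agent.W73.LG

open Pool.Agent.NPC Pool.Agent.H620R2.Gauge Pool.Agent.H622R2.Exp Pool.Agent.H622R2.Ckt
open Pool.Agent.W912.LG

/-- adaptive computations with questions to an oracle -/
inductive QT (α : Type) : Type
  | ret (a : α) : QT α
  | ask (y : List Bool) (c : Bool → QT α) : QT α

namespace QT

variable {α : Type}

/-- the result -/
def run (A : Oracle) : QT α → α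
  | ret a => a
  | ask y c => (c (A y)).run A

/-- the maximal number of questions -/
def depth : QT α → ℕ
  | ret _ => 0
  | ask _ c => max ((c true).depth) ((c false).depth) + 1

theorem depth_le {y : List Bool} {c : Bool → QT α} {T : ℕ} (h : (ask y c).depth ≤ T + 1)
    (b : Bool) : (c b).depth ≤ T := by
  have h1 : max ((c true).depth) ((c false).depth) + 1 ≤ T + 1 := h
  cases b
  · exact (le_max_right _ _).trans (Nat.le_of_succ_le_succ h1)
  · exact (le_max_left _ _).trans (Nat.le_of_succ_le_succ h1)

/-- the number of the results for oracles close to `B` -/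
theorem count (B : Oracle) (t : QT α) : ∀ (T s : ℕ) (D : Set (List Bool)), t.depth ≤ T →
    ∃ G : Finset α, G.card ≤ (T + 1) ^ s ∧ ∀ A : Oracle, (∀ y ∈ D, A y ≠ B y) →
      ({y | A y ≠ B y} \ D).Finite → ({y | A y ≠ B y} \ D).ncard ≤ s → t.run A ∈ G := by
  classical
  induction t with
  | ret a =>
    intro T s D _
    refine ⟨{a}, ?_, fun A _ _ _ => Finset.mem_singleton_self a⟩
    rw [Finset.card_singleton]
    exact Nat.one_le_pow _ _ (Nat.succ_pos T)
  | ask y c ih =>
    intro T s D hT
    obtain ⟨T', rfl⟩ : ∃ T', T = T' + 1 := by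
      rcases T with _ | T'
      · exact absurd hT (by simp [depth])
      · exact ⟨T', rfl⟩
    have hd : ∀ b, (c b).depth ≤ T' := depth_le hT
    have hmono : (T' + 1) ^ s ≤ (T' + 1 + 1) ^ s := Nat.pow_le_pow_left (Nat.le_succ _) s
    have hneg : ∀ A : Oracle, A y ≠ B y → A y = !(B y) := by
      intro A h
      revert h
      cases A y <;> cases B y <;> simp
    by_cases hy : y ∈ D
    · obtain ⟨G, hG, hG2⟩ := ih (!(B y)) T' s D (hd _)
      refine ⟨G, hG.trans hmono, fun A h1 h2 h3 => ?_⟩
      have h4 := hG2 A h1 h2 h3
      show (c (A y)).run A ∈ G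
      rw [hneg A (h1 y hy)]
      exact h4
    · obtain ⟨G1, hG1, hG12⟩ := ih (B y) T' s D (hd _)
      rcases s with _ | s
      · refine ⟨G1, hG1.trans hmono, fun A h1 h2 h3 => ?_⟩
        show (c (A y)).run A ∈ G1
        have h4 : A y = B y := by
          by_contra h4
          have h5 : {y | A y ≠ B y} \ D = ∅ := (Set.ncard_eq_zero h2).1 (Nat.le_zero.1 h3)
          have h6 : y ∈ {y | A y ≠ B y} \ D := ⟨h4, hy⟩
          rw [h5] at h6
          exact h6
        rw [h4]
        exact hG12 A h1 h2 h3
      · obtain ⟨G2, hG2, hG22⟩ := ih (!(B y)) T' s (insert y D) (hd _)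
        refine ⟨G1 ∪ G2, ?_, fun A h1 h2 h3 => ?_⟩
        · refine (Finset.card_union_le _ _).trans ((Nat.add_le_add hG1 hG2).trans ?_)
          have e1 : (T' + 1) ^ (s + 1) + (T' + 1) ^ s = (T' + 1) ^ s * (T' + 1 + 1) := by ring
          rw [e1, pow_succ]
          exact Nat.mul_le_mul_right _ (Nat.pow_le_pow_left (Nat.le_succ _) s)
        · show (c (A y)).run A ∈ G1 ∪ G2
          rw [Finset.mem_union]
          by_cases h4 : A y = B y
          · left
            rw [h4]
            exact hG12 A h1 h2 h3
          · right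
            have h6 : y ∈ {y | A y ≠ B y} \ D := ⟨h4, hy⟩
            have h7 : {y | A y ≠ B y} \ insert y D = ({y | A y ≠ B y} \ D) \ {y} := by
              ext z
              simp only [Set.mem_sdiff, Set.mem_insert_iff, Set.mem_singleton_iff]
              tauto
            rw [hneg A h4]
            refine hG22 A ?_ ?_ ?_
            · intro z hz
              rcases hz with rfl | hz
              · exact h4
              · exact h1 z hz
            · rw [h7]
              exact h2.subset Set.sdiff_subset
            · rw [h7]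
              have h8 := Set.ncard_sdiff_singleton_add_one h6 h2
              omega

end QT

/-- the evaluation of a list of gates -/
def gT {α : Type} (x : List Bool) : List Gate → List Bool → (List Bool → QT α) → QT α
  | [], v, c => c v
  | .ask l :: gs, v, c => QT.ask (l.map (Wire.val x v)) (fun b => gT x gs (v ++ [b]) c)
  | .and r s :: gs, v, c => gT x gs (v ++ [r.val x v && s.val x v]) c
  | .or r s :: gs, v, c => gT x gs (v ++ [r.val x v || s.val x v]) c
  | .not r :: gs, v, c => gT x gs (v ++ [!(r.val x v)]) c

theorem gT_run {α : Type} (A : Oracle) (x : List Bool) (c : List Bool → QT α) (gs : List Gate) :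
    ∀ v : List Bool, (gT x gs v c).run A =
      (c (gs.foldl (fun v g => v ++ [g.val A x v]) v)).run A := by
  induction gs with
  | nil => intro v; rfl
  | cons g gs ih =>
    intro v
    cases g with
    | ask l => exact ih _
    | and r s => exact ih _
    | or r s => exact ih _
    | not r => exact ih _

theorem gT_depth {α : Type} (x : List Bool) (c : List Bool → QT α) (T : ℕ)
    (hc : ∀ v, (c v).depth ≤ T) (gs : List Gate) :
    ∀ v : List Bool, (gT x gs v c).depth ≤ gs.length + T := by
  induction gs with
  | nil => intro v; rw [List.length_nil, Nat.zero_add]; exact hc v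
  | cons g gs ih =>
    intro v
    rw [List.length_cons]
    cases g with
    | ask l =>
      show max ((gT x gs (v ++ [true]) c).depth) ((gT x gs (v ++ [false]) c).depth) + 1 ≤ _
      have h1 := ih (v ++ [true])
      have h2 := ih (v ++ [false])
      have h3 := max_le h1 h2
      omega
    | and r s => exact (ih _).trans (by omega)
    | or r s => exact (ih _).trans (by omega)
    | not r => exact (ih _).trans (by omega)

/-- the evaluation of a circuit on a list of inputs -/
def aT (C : Circuit) : List (List Bool) → List Bool → QT (List Bool)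
  | [], acc => QT.ret acc
  | x :: xs, acc => gT x C.gates [] (fun v => aT C xs (acc ++ [C.out.val x v]))

theorem aT_run (A : Oracle) (C : Circuit) (xs : List (List Bool)) :
    ∀ acc : List Bool, (aT C xs acc).run A = acc ++ xs.map (C.eval A) := by
  induction xs with
  | nil => intro acc; rw [List.map_nil, List.append_nil]; rfl
  | cons x xs ih =>
    intro acc
    show (gT x C.gates [] (fun v => aT C xs (acc ++ [C.out.val x v]))).run A = _
    rw [gT_run, ih, List.map_cons, List.append_assoc]
    rfl

theorem aT_depth (C : Circuit) (xs : List (List Bool)) :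
    ∀ acc : List Bool, (aT C xs acc).depth ≤ xs.length * C.gates.length := by
  induction xs with
  | nil => intro acc; exact Nat.zero_le _
  | cons x xs ih =>
    intro acc
    show (gT x C.gates [] (fun v => aT C xs (acc ++ [C.out.val x v]))).depth ≤ _
    refine (gT_depth x _ (xs.length * C.gates.length) (fun v => ih _) C.gates []).trans ?_
    rw [List.length_cons]
    exact le_of_eq (by ring)

theorem length_le_size (C : Circuit) : C.gates.length ≤ C.size := by
  have h : ∀ gs : List Gate, gs.length ≤ (gs.map Gate.size).sum := by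
    intro gs
    induction gs with
    | nil => exact Nat.zero_le _
    | cons g gs ih =>
      rw [List.length_cons, List.map_cons, List.sum_cons]
      have h1 : 1 ≤ g.size := by
        cases g <;> simp [Gate.size]
      omega
  exact h C.gates

/-- the behaviours of one circuit -/
theorem behav (k s : ℕ) (B : Oracle) (X : Finset (List Bool)) (C : Circuit) (hC : C.size ≤ k) :
    ∃ G : Finset (List Bool → Bool), G.card ≤ (X.card * (k + 1) + 1) ^ s ∧
      ∀ f : List Bool → Bool, (∃ A : Oracle, Near B A s ∧ ∀ x ∈ X, f x = C.eval A x) →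
        (∀ x ∉ X, f x = false) → f ∈ G := by
  classical
  have hd : (aT C X.toList []).depth ≤ X.card * (k + 1) := by
    refine (aT_depth C X.toList []).trans ?_
    rw [Finset.length_toList]
    exact Nat.mul_le_mul_left _ (((length_le_size C).trans hC).trans (Nat.le_succ k))
  obtain ⟨G, hG, hG2⟩ := QT.count B (aT C X.toList []) (X.card * (k + 1)) s ∅ hd
  let dec : List Bool → List Bool → Bool := fun l =>
    if h : ∃ f : List Bool → Bool, X.toList.map f = l ∧ ∀ x ∉ X, f x = false then h.choose
    else fun _ => false
  refine ⟨G.image dec, Finset.card_image_le.trans hG, ?_⟩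
  rintro f ⟨A, hA, hfA⟩ hf
  have h1 := hG2 A (fun y hy => absurd hy (Set.notMem_empty y))
    (by rw [Set.sdiff_empty]; exact hA.1) (by rw [Set.sdiff_empty]; exact hA.2)
  rw [aT_run, List.nil_append] at h1
  have h2 : X.toList.map f = X.toList.map (C.eval A) := by
    apply List.map_congr_left
    intro x hx
    exact hfA x (Finset.mem_toList.1 hx)
  rw [← h2] at h1
  rw [Finset.mem_image]
  refine ⟨_, h1, ?_⟩
  have hex : ∃ f' : List Bool → Bool, X.toList.map f' = X.toList.map f ∧
      ∀ x ∉ X, f' x = false := ⟨f, rfl, hf⟩
  have h3 : dec (X.toList.map f) = hex.choose := dif_pos hex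
  rw [h3]
  obtain ⟨h4, h5⟩ := hex.choose_spec
  funext x
  by_cases hx : x ∈ X
  · exact (List.map_inj_left.1 h4) x (Finset.mem_toList.2 hx)
  · rw [h5 x hx, hf x hx]

theorem main : S_GROW := by
  classical
  intro n k s B X hX
  obtain ⟨F, hF, hFC⟩ := exists_circuits n k
  have hb : ∀ C : Circuit, ∃ G : Finset (List Bool → Bool), C.size ≤ k →
      G.card ≤ (X.card * (k + 1) + 1) ^ s ∧
      ∀ f : List Bool → Bool, (∃ A : Oracle, Near B A s ∧ ∀ x ∈ X, f x = C.eval A x) →
        (∀ x ∉ X, f x = false) → f ∈ G := by
    intro C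
    by_cases hC : C.size ≤ k
    · obtain ⟨G, hG⟩ := behav k s B X C hC
      exact ⟨G, fun _ => hG⟩
    · exact ⟨∅, fun h => absurd h hC⟩
  choose G hG using hb
  have hsub : {f : List Bool → Bool | (∃ (A : Oracle) (C : Circuit), Near B A s ∧ C.size ≤ k ∧
      ∀ x ∈ X, f x = C.eval A x) ∧ ∀ x ∉ X, f x = false} ⊆
      (((F.filter fun C => C.size ≤ k).biUnion G : Finset (List Bool → Bool)) :
        Set (List Bool → Bool)) := by
    rintro f ⟨⟨A, C, hA, hC, hfC⟩, hf⟩
    obtain ⟨C', hC', hs, he⟩ := hFC C hC
    rw [Finset.mem_coe, Finset.mem_biUnion]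
    refine ⟨C', Finset.mem_filter.2 ⟨hC', hs⟩, ?_⟩
    refine (hG C' hs).2 f ⟨A, hA, fun x hx => ?_⟩ hf
    rw [he A x (hX x hx)]
    exact hfC x hx
  refine (Set.ncard_le_ncard hsub (Finset.finite_toSet _)).trans ?_
  rw [Set.ncard_coe_finset]
  refine (Finset.card_biUnion_le_card_mul _ _ ((X.card * (k + 1) + 1) ^ s)
    (fun C hC => (hG C (Finset.mem_filter.1 hC).2).1)).trans ?_
  rw [mul_comm]
  exact Nat.mul_le_mul_left _ ((Finset.card_le_card (Finset.filter_subset _ _)).trans hF)

end Pool.Agent.W73.LG
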